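import Pool.Agent.V11316.AT9

/-!
# The numbers of primes in the windows at sums are uncorrelated

Consider a table with rows `a_1, …, a_k` in a finite set `A` and columns `c_1, …, c_l` in a finite set `C`, both of size at least
`d N`. Each cell `(i, j)` of the table has its own labels `f_ij : A → [0, N]` and `g_ij : C → [0, N]`, ARBITRARY injective maps,
and its own length `H_ij`, an integer with `λ log N ≤ H_ij ≤ N`, where `λ > 0` is arbitrarily small. The entry of the cell is the
sum `x_ij = f_ij(a_i) + g_ij(c_j)`, and `d_ij` is the number of primes in the window `(x_ij, x_ij + H_ij]` divided by the expected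
number `H_ij / log N`. Then the average of the product of the `d_ij`, over any set of cells of the table, over all rows in `A` and
all columns in `C` is `1 + o(1)`, uniformly in `A`, `C`, the labels and the lengths.

For example, if `A` and `C` are dense sets of integers in `[0, N]` then the entry can be `a_i + c_j` in all cells (the addition
table of `A` and `C`), or any linear form `(u a_i + v c_j + t)` with bounded coefficients which depend on the cell.

We prove more: for almost all choices of `r` rows and `s` columns the same holds for the average over all ways to complete the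
table by `k` further rows and `l` further columns, the product being over an arbitrary set of the new cells.

Method: the difference of the Fourier kernels of two windows is small except near the frequency `0`, and there and elsewhere the
exponential sum over the primes is small: by the estimate of Vinogradov on the minor arcs, by the theorem of Siegel and Walfisz and
the size of Ramanujan sums on the major arcs with large denominator. This gives a small cut norm of the matrix of the densities,
already for windows of constant length. The moments of the rows are bounded by the sieve.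
-/

set_option autoImplicit false

namespace Pool.Agent.Results.MP_293bbf_nt.CorrelationsInSums

open Finset

/-- the number of primes in `(x, x + H]`, divided by `H / log N` -/
noncomputable def density (N H x : ℕ) : ℝ := (((Ioc x (x + H)).filter Nat.Prime).card : ℝ) * Real.log N / H

/-- the data of a cell: the labels `f` of the rows and `g` of the columns, and the length `H` of the window -/
structure Data where
  /-- the labels of the rows -/
  f : ℕ → ℕ
  /-- the labels of the columns -/
  g : ℕ → ℕ
  /-- the length of the window -/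
  H : ℕ

/-- the factor of the cell in row `a` and column `c`: the density of the primes in `(x, x + H]`, `x = f a + g c`, if the cell is
used with the data `f`, `g`, `H`, and `1` if the cell is not used -/
noncomputable def factor (N : ℕ) (o : Option Data) (a c : ℕ) : ℝ := match o with
  | none => 1
  | some q => density N q.H (q.f a + q.g c)

/-- the labels are injective on `A` and on `C`, with values at most `N`, and the length is between `λ log N` and `N` -/
def Admissible (lam : ℝ) (N : ℕ) (A C : Finset ℕ) (q : Data) : Prop :=
  (Set.InjOn q.f A ∧ ∀ a ∈ A, q.f a ≤ N) ∧ (Set.InjOn q.g C ∧ ∀ c ∈ C, q.g c ≤ N) ∧ lam * Real.log N ≤ q.H ∧ q.H ≤ N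

/-- the data of all used cells are admissible -/
def AllAdmissible {r s : ℕ} (lam : ℝ) (N : ℕ) (A C : Finset ℕ) (σ : Fin r → Fin s → Option Data) : Prop :=
  ∀ i j, ∀ q ∈ σ i j, Admissible lam N A C q

/-- the sum, over all ways to complete the rows `a` and the columns `c` by `k` further rows and `l` further columns, of the
product of the factors of the new cells; the data are prescribed by `σ` (old rows, new columns), `τ` (new rows, old columns),
`υ` (new rows, new columns) -/
noncomputable def correlation {r s k l : ℕ} (N : ℕ) (σ : Fin r → Fin l → Option Data) (τ : Fin k → Fin s → Option Data)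
    (υ : Fin k → Fin l → Option Data) (A C : Finset ℕ) (a : Fin r → ℕ) (c : Fin s → ℕ) : ℝ :=
  ∑ a' ∈ Fintype.piFinset (fun _ : Fin k => A), ∑ c' ∈ Fintype.piFinset (fun _ : Fin l => C),
    (∏ i, ∏ j, factor N (σ i j) (a i) (c' j)) * (∏ i, ∏ j, factor N (τ i j) (a' i) (c j)) * ∏ i, ∏ j, factor N (υ i j) (a' i) (c' j)

open Classical in
/-- the number of the choices of `r` rows and `s` columns for which the correlation differs from `|A| ^ k |C| ^ l` by more than
`δ |A| ^ k |C| ^ l` -/
noncomputable def exceptions {r s k l : ℕ} (N : ℕ) (δ : ℝ) (σ : Fin r → Fin l → Option Data) (τ : Fin k → Fin s → Option Data)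
    (υ : Fin k → Fin l → Option Data) (A C : Finset ℕ) : ℕ :=
  ((Fintype.piFinset (fun _ : Fin r => A) ×ˢ Fintype.piFinset (fun _ : Fin s => C)).filter (fun z =>
    δ * ((A.card : ℝ) ^ k * (C.card : ℝ) ^ l) < |correlation N σ τ υ A C z.1 z.2 - (A.card : ℝ) ^ k * (C.card : ℝ) ^ l|)).card

/-- **Main theorem.** (1) For all but `δ |A| ^ r |C| ^ s` choices of `r` rows and `s` columns the mean value of the product of the
densities over any set of new cells is `1 + O(δ)`. (2) The case without old rows and columns: the mean value of the product of the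
densities of the windows in an arbitrary set of cells of a `k × l` table is `1 + O(δ)`. -/
theorem result (r s k l : ℕ) (lam d δ : ℝ) (hlam : 0 < lam) (hd : 0 < d) (hδ : 0 < δ) :
    ∃ N₀ : ℕ, ∀ N : ℕ, N₀ ≤ N → ∀ A C : Finset ℕ, d * (N : ℝ) ≤ A.card → d * (N : ℝ) ≤ C.card →
      (∀ (σ : Fin r → Fin l → Option Data) (τ : Fin k → Fin s → Option Data) (υ : Fin k → Fin l → Option Data),
        AllAdmissible lam N A C σ → AllAdmissible lam N A C τ → AllAdmissible lam N A C υ →
        (exceptions N δ σ τ υ A C : ℝ) ≤ δ * ((A.card : ℝ) ^ r * (C.card : ℝ) ^ s)) ∧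
      (∀ υ : Fin k → Fin l → Option Data, AllAdmissible lam N A C υ →
        |∑ a ∈ Fintype.piFinset (fun _ : Fin k => A), ∑ c ∈ Fintype.piFinset (fun _ : Fin l => C),
          ∏ i, ∏ j, factor N (υ i j) (a i) (c j) - (A.card : ℝ) ^ k * (C.card : ℝ) ^ l| ≤
          δ * ((A.card : ℝ) ^ k * (C.card : ℝ) ^ l)) := by
  classical
  -- translation of the data
  obtain ⟨T, hT⟩ : ∃ T : Option Data → Option V11316.AT.Lb, T = fun o => o.map (fun q => (q.f, q.g, q.H)) := ⟨_, rfl⟩
  have hfac : ∀ (N : ℕ) (o : Option Data) (a c : ℕ), factor N o a c = V11316.AT.wB N (T o) a c := by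
    intro N o a c
    rw [hT]
    rcases o with _ | q
    · rfl
    · rfl
  have hlab : ∀ {r s N : ℕ} {A C : Finset ℕ} {σ : Fin r → Fin s → Option Data}, AllAdmissible lam N A C σ →
      ∀ i j, ∀ q ∈ T (σ i j), V11316.AT.Lab lam N A C q := by
    intro r s N A C σ h i j q hq
    rw [hT] at hq
    rcases hσ : σ i j with _ | q'
    · rw [hσ] at hq
      simp at hq
    · rw [hσ] at hq
      simp only [Option.map_some, Option.mem_def, Option.some.injEq] at hq
      subst hq
      obtain ⟨⟨h1, h2⟩, ⟨h3, h4⟩, h5, h6⟩ := h i j q' hσ
      exact ⟨h1, h3, h2, h4, h5, h6⟩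
  have h1 := V11316.AT.labels_asym r s k l lam d δ hlam hd hδ
  have hδ2 : 0 < min δ (1 / 2) := lt_min hδ (by norm_num)
  have h2 := V11316.AT.labels_asym 0 0 k l lam d (min δ (1 / 2)) hlam hd hδ2
  obtain ⟨N₀, hN₀⟩ := Filter.eventually_atTop.1 (h1.and h2)
  refine ⟨N₀, fun N hN A C hA hC => ⟨fun σ τ υ hσ hτ hυ => ?_, fun υ hυ => ?_⟩⟩
  · have g := (hN₀ N hN).1 A C hA hC (fun i j => T (σ i j)) (fun i j => T (τ i j)) (fun i j => T (υ i j)) (hlab hσ) (hlab hτ) (hlab hυ)
    unfold exceptions correlation
    simp_rw [hfac]
    exact g
  · have g := (hN₀ N hN).2 A C hA hC (fun i => i.elim0) (fun _ j => j.elim0) (fun i j => T (υ i j))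
      (fun i => i.elim0) (fun _ j => j.elim0) (hlab hυ)
    rw [pow_zero, pow_zero, mul_one, mul_one] at g
    have hlt : (min δ (1 / 2 : ℝ)) < 1 := lt_of_le_of_lt (min_le_right _ _) (by norm_num)
    have hcard := lt_of_le_of_lt g hlt
    have hcard2 : ((Fintype.piFinset (fun _ : Fin 0 => A) ×ˢ Fintype.piFinset (fun _ : Fin 0 => C)).filter (fun z =>
        (min δ (1 / 2)) * ((A.card : ℝ) ^ k * (C.card : ℝ) ^ l) <
        |∑ a' ∈ Fintype.piFinset (fun _ : Fin k => A), ∑ c' ∈ Fintype.piFinset (fun _ : Fin l => C),
          V11316.TB.cells (V11316.AT.wB N) (fun i => i.elim0) (fun _ j => j.elim0) (fun i j => T (υ i j)) z.1 z.2 a' c' -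
          (A.card : ℝ) ^ k * (C.card : ℝ) ^ l|)).card = 0 := by
      have : (((Fintype.piFinset (fun _ : Fin 0 => A) ×ˢ Fintype.piFinset (fun _ : Fin 0 => C)).filter (fun z =>
        (min δ (1 / 2)) * ((A.card : ℝ) ^ k * (C.card : ℝ) ^ l) <
        |∑ a' ∈ Fintype.piFinset (fun _ : Fin k => A), ∑ c' ∈ Fintype.piFinset (fun _ : Fin l => C),
          V11316.TB.cells (V11316.AT.wB N) (fun i => i.elim0) (fun _ j => j.elim0) (fun i j => T (υ i j)) z.1 z.2 a' c' -
          (A.card : ℝ) ^ k * (C.card : ℝ) ^ l|)).card : ℝ) < ((1 : ℕ) : ℝ) := by push_cast; exact hcard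
      have h3 := Nat.cast_lt.1 this
      omega
    have hmem : ((fun i => i.elim0, fun j => j.elim0) : (Fin 0 → ℕ) × (Fin 0 → ℕ)) ∈
        Fintype.piFinset (fun _ : Fin 0 => A) ×ˢ Fintype.piFinset (fun _ : Fin 0 => C) := by
      rw [mem_product, Fintype.mem_piFinset, Fintype.mem_piFinset]
      exact ⟨fun i => i.elim0, fun j => j.elim0⟩
    have hno := filter_eq_empty_iff.1 (card_eq_zero.1 hcard2) hmem
    rw [not_lt] at hno
    have hcells : ∀ (a' : Fin k → ℕ) (c' : Fin l → ℕ), V11316.TB.cells (V11316.AT.wB N)
        (fun i : Fin 0 => (i.elim0 : Fin l → Option V11316.AT.Lb))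
        (fun (_ : Fin k) (j : Fin 0) => j.elim0) (fun i j => T (υ i j)) (fun i => i.elim0) (fun j => j.elim0) a' c' =
        ∏ i, ∏ j, factor N (υ i j) (a' i) (c' j) := by
      intro a' c'
      unfold V11316.TB.cells
      simp only [univ_eq_empty, prod_empty, prod_const_one, one_mul]
      exact prod_congr rfl fun i _ => prod_congr rfl fun j _ => (hfac _ _ _ _).symm
    simp only [hcells] at hno
    refine hno.trans (mul_le_mul_of_nonneg_right (min_le_left _ _) (by positivity))

end Pool.Agent.Results.MP_293bbf_nt.CorrelationsInSums
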