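import Pool.Agent.V11316.TM4

/-!
# The numbers of primes in the windows of a multiplication table are uncorrelated

Let `θ > 0` be arbitrarily small and let `A` be an arbitrary set of integers in `[β X ^ θ, X ^ θ]` which contains a positive
proportion of the integers, or of the primes, of this interval, and let `C` be an arbitrary spread set of real numbers in
`(0, X ^ (1 - θ)]`. For rows `a_1, …, a_k` in `A` and columns `c_1, …, c_l` in `C` consider the `k l` windows
`(a_i c_j - H_ij, a_i c_j)` of arbitrary lengths `λ log X ≤ H_ij ≤ X ^ (1 - ρ)`, and let `d_ij` be the number of primes in the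
window divided by the expected number `H_ij / log (a_i c_j)`. Then the average of the product of the `d_ij`, over any set of cells
of the table, over all rows in `A` and all columns in `C` is `1 + o(1)`, uniformly in `A`, `C` and in the lengths.

We prove more: for almost all choices of `r` rows and `s` columns the same holds for the average over all ways to complete the
table by `k` further rows and `l` further columns, the product being over an arbitrary set of the new cells.
-/

set_option autoImplicit false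

namespace Pool.Agent.Results.MP_293bbf_nt.CorrelationsInTables

open Finset

/-- the number of primes in the open interval `(x - H, x)`, divided by its expected value `H / log x` -/
noncomputable def density (H x : ℝ) : ℝ :=
  (Set.ncard {p : ℕ | p.Prime ∧ x - H < p ∧ (p : ℝ) < x} : ℝ) * Real.log x / H

/-- the factor of a cell with entry `x`: the density of the primes in `(x - H, x)` if the cell is used with the length `H`, and
`1` if the cell is not used -/
noncomputable def factor (o : Option ℝ) (x : ℝ) : ℝ := match o with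
  | none => 1
  | some H => density H x

/-- `A` is a set of integers in `[β X ^ θ, X ^ θ]` which contains at least `δ X ^ θ` integers, or which consists of at least
`δ X ^ θ / log X` primes -/
def Rows (β δ θ X : ℝ) (A : Finset ℕ) : Prop :=
  (∀ a ∈ A, 1 ≤ a ∧ β * X ^ θ ≤ (a : ℝ) ∧ (a : ℝ) ≤ X ^ θ) ∧
    (δ * X ^ θ ≤ A.card ∨ ((∀ a ∈ A, a.Prime) ∧ δ * (X ^ θ / Real.log X) ≤ A.card))

/-- `C` is a set of positive real numbers up to `X ^ (1 - θ)` which is spread: an interval of length `H / X ^ θ`, that is, the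
`H / X`-th part of the length of `(0, X ^ (1 - θ)]`, contains at most the `B H / X`-th part of `C` -/
def Columns (B θ X H : ℝ) (C : Finset ℝ) : Prop :=
  (∀ c ∈ C, 0 < c ∧ c ≤ X ^ (1 - θ)) ∧
    ∀ u : ℝ, ((C.filter (fun c => u ≤ c ∧ c ≤ u + H / X ^ θ)).card : ℝ) ≤ B * (H / X) * C.card

/-- all lengths are between `H₁` and `H₂` -/
def Lengths {r s : ℕ} (H₁ H₂ : ℝ) (σ : Fin r → Fin s → Option ℝ) : Prop := ∀ i j, ∀ H ∈ σ i j, H₁ ≤ H ∧ H ≤ H₂

/-- the sum, over all ways to complete the rows `a` and the columns `c` by `k` further rows and `l` further columns, of the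
product of the factors of the new cells; the lengths are prescribed by `σ` (old rows, new columns), `τ` (new rows, old columns),
`υ` (new rows, new columns) -/
noncomputable def correlation {r s k l : ℕ} (σ : Fin r → Fin l → Option ℝ) (τ : Fin k → Fin s → Option ℝ)
    (υ : Fin k → Fin l → Option ℝ) (A : Finset ℕ) (C : Finset ℝ) (a : Fin r → ℕ) (c : Fin s → ℝ) : ℝ :=
  ∑ a' ∈ Fintype.piFinset (fun _ : Fin k => A), ∑ c' ∈ Fintype.piFinset (fun _ : Fin l => C),
    (∏ i, ∏ j, factor (σ i j) (a i * c' j)) * (∏ i, ∏ j, factor (τ i j) (a' i * c j)) * ∏ i, ∏ j, factor (υ i j) (a' i * c' j)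

open Classical in
/-- the number of the choices of `r` rows and `s` columns for which the correlation differs from `|A| ^ k |C| ^ l` by more than
`δ |A| ^ k |C| ^ l` -/
noncomputable def exceptions {r s k l : ℕ} (δ : ℝ) (σ : Fin r → Fin l → Option ℝ) (τ : Fin k → Fin s → Option ℝ)
    (υ : Fin k → Fin l → Option ℝ) (A : Finset ℕ) (C : Finset ℝ) : ℕ :=
  ((Fintype.piFinset (fun _ : Fin r => A) ×ˢ Fintype.piFinset (fun _ : Fin s => C)).filter (fun z =>
    δ * ((A.card : ℝ) ^ k * (C.card : ℝ) ^ l) < |correlation σ τ υ A C z.1 z.2 - (A.card : ℝ) ^ k * (C.card : ℝ) ^ l|)).card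

/-- **Main theorem.** (1) For all but `δ |A| ^ r |C| ^ s` choices of `r` rows and `s` columns the mean value of the product of the
densities over any set of new cells is `1 + O(δ)`. (2) The case without old rows and columns: the mean value of the product of the
densities of the windows in an arbitrary set of cells of a `k × l` table is `1 + O(δ)`. -/
theorem result (r s k l : ℕ) (θ lam ρ β δ B : ℝ) (hθ : 0 < θ) (hlam : 0 < lam) (hρ : 0 < ρ) (hβ : 0 < β) (hδ : 0 < δ)
    (hB : 1 ≤ B) :
    ∃ X₀ : ℝ, ∀ X : ℝ, X₀ ≤ X → ∀ H₀ : ℝ, lam * Real.log X ≤ H₀ →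
      ∀ (A : Finset ℕ) (C : Finset ℝ), Rows β δ θ X A → Columns B θ X H₀ C →
      (∀ (σ : Fin r → Fin l → Option ℝ) (τ : Fin k → Fin s → Option ℝ) (υ : Fin k → Fin l → Option ℝ),
        Lengths H₀ (X ^ (1 - ρ)) σ → Lengths H₀ (X ^ (1 - ρ)) τ → Lengths H₀ (X ^ (1 - ρ)) υ →
        (exceptions δ σ τ υ A C : ℝ) ≤ δ * ((A.card : ℝ) ^ r * (C.card : ℝ) ^ s)) ∧
      (∀ υ : Fin k → Fin l → Option ℝ, Lengths H₀ (X ^ (1 - ρ)) υ →
        |∑ a ∈ Fintype.piFinset (fun _ : Fin k => A), ∑ c ∈ Fintype.piFinset (fun _ : Fin l => C),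
          ∏ i, ∏ j, factor (υ i j) (a i * c j) - (A.card : ℝ) ^ k * (C.card : ℝ) ^ l| ≤
          δ * ((A.card : ℝ) ^ k * (C.card : ℝ) ^ l)) := by
  classical
  have hfac : ∀ (o : Option ℝ) (a : ℕ) (c : ℝ), factor o (a * c) = V11316.TB.wH o a c := by
    intro o a c
    rcases o with _ | H
    · rfl
    · show density H (a * c) = Y851.PT.ZH H (a * c)
      exact (Y851.PT.ZH_eq H _).symm
  have hadm : ∀ {X : ℝ} {A : Finset ℕ}, Rows β δ θ X A → Y851.PS.Adm δ θ X A ∧ ∀ a ∈ A, β * X ^ θ ≤ (a : ℝ) := by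
    intro X A h
    exact ⟨⟨fun a ha => ⟨(h.1 a ha).1, (h.1 a ha).2.2⟩, h.2⟩, fun a ha => (h.1 a ha).2.1⟩
  have hcol : ∀ {X H : ℝ} {C : Finset ℝ}, Columns B θ X H C → Y851.PT.SpH B H θ X C := by
    intro X H C h
    refine ⟨fun c hc => (h.1 c hc).1, fun c hc => (h.1 c hc).2, fun u => ?_⟩
    convert h.2 u
  have h1 := V11316.TB.primes_asym r s k l θ lam ρ δ B β δ hθ hlam hρ hδ hB hβ hδ
  have hδ2 : 0 < min δ (1 / 2) := lt_min hδ (by norm_num)
  have h2 := V11316.TB.primes_asym 0 0 k l θ lam ρ δ B β (min δ (1 / 2)) hθ hlam hρ hδ hB hβ hδ2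
  obtain ⟨X₀, hX₀⟩ := Filter.eventually_atTop.1 (h1.and h2)
  refine ⟨X₀, fun X hX H₀ hH₀ A C hA hC => ⟨fun σ τ υ hσ hτ hυ => ?_, fun υ hυ => ?_⟩⟩
  · have g := (hX₀ X hX).1 H₀ hH₀ A C (hadm hA).1 (hadm hA).2 (hcol hC) σ τ υ hσ hτ hυ
    unfold exceptions correlation
    simp_rw [hfac]
    exact g
  · have g := (hX₀ X hX).2 H₀ hH₀ A C (hadm hA).1 (hadm hA).2 (hcol hC) (fun i => i.elim0) (fun _ j => j.elim0) υ
      (fun i => i.elim0) (fun _ j => j.elim0) hυ
    rw [pow_zero, pow_zero, mul_one, mul_one] at g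
    have hlt : (min δ (1 / 2 : ℝ)) < 1 := lt_of_le_of_lt (min_le_right _ _) (by norm_num)
    have hcard := lt_of_le_of_lt g hlt
    have hcard2 : ((Fintype.piFinset (fun _ : Fin 0 => A) ×ˢ Fintype.piFinset (fun _ : Fin 0 => C)).filter (fun z =>
        (min δ (1 / 2)) * ((A.card : ℝ) ^ k * (C.card : ℝ) ^ l) <
        |∑ a' ∈ Fintype.piFinset (fun _ : Fin k => A), ∑ c' ∈ Fintype.piFinset (fun _ : Fin l => C),
          V11316.TB.cells V11316.TB.wH (fun i => i.elim0) (fun _ j => j.elim0) υ z.1 z.2 a' c' -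
          (A.card : ℝ) ^ k * (C.card : ℝ) ^ l|)).card = 0 := by
      have : (((Fintype.piFinset (fun _ : Fin 0 => A) ×ˢ Fintype.piFinset (fun _ : Fin 0 => C)).filter (fun z =>
        (min δ (1 / 2)) * ((A.card : ℝ) ^ k * (C.card : ℝ) ^ l) <
        |∑ a' ∈ Fintype.piFinset (fun _ : Fin k => A), ∑ c' ∈ Fintype.piFinset (fun _ : Fin l => C),
          V11316.TB.cells V11316.TB.wH (fun i => i.elim0) (fun _ j => j.elim0) υ z.1 z.2 a' c' -
          (A.card : ℝ) ^ k * (C.card : ℝ) ^ l|)).card : ℝ) < ((1 : ℕ) : ℝ) := by push_cast; exact hcard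
      have h3 := Nat.cast_lt.1 this
      omega
    have hmem : ((fun i => i.elim0, fun j => j.elim0) : (Fin 0 → ℕ) × (Fin 0 → ℝ)) ∈
        Fintype.piFinset (fun _ : Fin 0 => A) ×ˢ Fintype.piFinset (fun _ : Fin 0 => C) := by
      rw [mem_product, Fintype.mem_piFinset, Fintype.mem_piFinset]
      exact ⟨fun i => i.elim0, fun j => j.elim0⟩
    have hno := filter_eq_empty_iff.1 (card_eq_zero.1 hcard2) hmem
    rw [not_lt] at hno
    have hcells : ∀ (a' : Fin k → ℕ) (c' : Fin l → ℝ), V11316.TB.cells V11316.TB.wH (fun i : Fin 0 => (i.elim0 : Fin l → Option ℝ))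
        (fun (_ : Fin k) (j : Fin 0) => j.elim0) υ (fun i => i.elim0) (fun j => j.elim0) a' c' = ∏ i, ∏ j, factor (υ i j) (a' i * c' j) := by
      intro a' c'
      unfold V11316.TB.cells
      simp only [univ_eq_empty, prod_empty, prod_const_one, one_mul]
      exact prod_congr rfl fun i _ => prod_congr rfl fun j _ => (hfac _ _ _).symm
    simp only [hcells] at hno
    refine hno.trans (mul_le_mul_of_nonneg_right (min_le_left _ _) (by positivity))

end Pool.Agent.Results.MP_293bbf_nt.CorrelationsInTables
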