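import Pool.Agent.V11316.AT24

/-!
# The density of the primes over the translates of a set, for all lengths from a power of the logarithm on at once

`R(x, y) = (π(x + y) - π(x)) / (y / log x)` is close to `1` on average over the points `x` of almost every translate `A + b` of
every set `A` of at least `N / (log N) ^ α` integers up to `N`, uniformly for all `y` between `(log N) ^ κ` and `N`, for every
`κ > (α + β) / 2`; the exceptional translates do not depend on `y`, and there are at most `N / (log N) ^ β` of them.

The theorem `TranslateAverages` of the starting files of this problem has `α = β = C` and only `y ≥ (log N) ^ K` for an unspecified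
large `K` which depends on `C` and `ε`. Here `K` can be any number greater than `C`; and if `α` and `β` are small then `y` goes down
to `(log N) ^ κ` with an arbitrarily small `κ > 0`, far below the mean distance of the primes. Note that for individual `x` the
quotient `R(x, y)` does not tend to `1` for `y = (log x) ^ a` (Maier).

Method: circle method. The difference of the Fourier kernels of a short and of a long window is small at frequencies `≥ C / y`. At
the other frequencies the exponential sum over the primes is small: by Vinogradov's estimate on the minor arcs, and on the major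
arcs `c / q` (`q` up to an arbitrary power of the logarithm) by the theorem of Siegel and Walfisz: it is `O(N / φ(q))`, while the
kernels are `O(q / (q + y))` there. The errors save an arbitrary power of `log N` in terms of `y`, so that `O(log log N)` lengths can
be treated at once.
-/

set_option autoImplicit false

/-- For all real `α, β ≥ 0`, `κ > (α + β) / 2` and `ε > 0` there is `N₀` such that for all `N ≥ N₀` and every set `A` of at least
`N / (log N) ^ α` integers in `[1, N]` the following holds for all integers `b ∈ [1, N]` outside a set of at most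
`N / (log N) ^ β` exceptions: simultaneously for all real `y` with `(log N) ^ κ ≤ y ≤ N` the average of
`R(x, y) = (π(x + y) - π(x)) / (y / log x)` over the points `x = a + b`, `a ∈ A`, differs from `1` by at most `ε`. -/
theorem Pool.Agent.Results.MP_293bbf_nt.TranslatesAllLengths.result (α β κ ε : ℝ) (hα : 0 ≤ α) (hβ : 0 ≤ β)
    (hκ : (α + β) / 2 < κ) (hε : 0 < ε) :
    ∃ N₀ : ℕ, ∀ N : ℕ, N₀ ≤ N → ∀ A : Finset ℕ, A ⊆ Finset.Icc 1 N → (N : ℝ) / Real.log N ^ α ≤ A.card →
      ∃ E : Finset ℕ, E ⊆ Finset.Icc 1 N ∧ (E.card : ℝ) ≤ (N : ℝ) / Real.log N ^ β ∧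
        ∀ b ∈ Finset.Icc 1 N, b ∉ E → ∀ y : ℝ, Real.log N ^ κ ≤ y → y ≤ N →
          |(∑ a ∈ A, ((Nat.primeCounting ⌊((a + b : ℕ) : ℝ) + y⌋₊ : ℝ) -
              Nat.primeCounting (a + b)) / (y / Real.log ((a + b : ℕ) : ℝ))) / A.card - 1| ≤ ε := by
  obtain ⟨N₀, hN₀⟩ := Filter.eventually_atTop.1
    (Pool.Agent.V11316.AT.uniform_sparse α β κ (min ε 1) hα hβ hκ (lt_min hε one_pos) (min_le_right _ _))
  refine ⟨N₀, fun N hN A hA hAN => ?_⟩
  obtain ⟨E, hE1, hE2, hE3⟩ := hN₀ N hN A (fun a ha => (Finset.mem_Icc.1 (hA ha)).2) hAN
  exact ⟨E, hE1, hE2, fun b hb hbE y hy1 hy2 => (hE3 b hb hbE y hy1 hy2).trans (min_le_left _ _)⟩
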