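import Pool.Agent.Results.MP_293bbf_nt.TranslateAverages
import Pool.Agent.Results.MP_31d0eb_nt.TranslatesOfSets
import Pool.Agent.V11326.WA

/-!
# `R(x, y)` is close to `1` for all `y ≥ (log x) ^ K`, on average over the translates of arbitrary sets by the integers
near `α v_n`

Let `R(x, y) = (π(x + y) - π(x)) / (y / log x)`.

(1) Let `v_n` tend to infinity with `∑ (log v_n) ^ (-t) < ∞` for some `t` (for instance `v_n = b ^ n` or
`v_n = exp (n ^ η)`), and let `A_n` be ANY sets of at least `v_n / (log v_n) ^ C` integers in `[1, v_n]`. For almost all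
`α > 0`, for all `ε > 0` and `D` there is `K` such that for all large `n` and ALL integers `b` with
`|b - α v_n| ≤ (log v_n) ^ D`, the average of `R(x, y)` over the translate `x ∈ A_n + b` differs from `1` by at most `ε`, for
all real `y` with `(log v_n) ^ K ≤ y ≤ v_n` at once.

(2) For thinner sets and `y ≥ v_n ^ ε`: with `c > 0` and `κ = κ(ε) > 0`, if `v` has exponent of convergence at most `τ`,
`θ < 1` and `A_n` are any sets of at least `v_n ^ (1 - κ)` integers in `[1, v_n]`, then for all `α > 0` outside a set of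
Hausdorff dimension at most `(1 - κ + τ) / (1 - θ)`, all large `n` and all `b` with `|b - α v_n| ≤ v_n ^ θ` the average is
between `c` and `6` and `R(x, y) ≥ c` for at least `c |A_n|` of the `x`, for all these `y` at once.
-/

set_option autoImplicit false

open Finset Filter Topology MeasureTheory

namespace Pool.Agent.Results.MP_293bbf_nt.TranslatesInWindows

/-- the exponent of convergence of the sequence `v` is at most `τ` -/
def ExpLe (v : ℕ → ℝ) (τ : ℝ) : Prop := ∀ t : ℝ, τ < t → Summable (fun n : ℕ => (v n) ^ (-t))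

/-- `R(x, y) = (π(x + y) - π(x)) / (y / log x)` -/
noncomputable def R (x : ℕ) (y : ℝ) : ℝ :=
  ((Nat.primeCounting ⌊(x : ℝ) + y⌋₊ : ℝ) - Nat.primeCounting x) / (y / Real.log (x : ℝ))

/-- the average of `R x y` over the points `x = a + b`, `a ∈ A` -/
noncomputable def avg (A : Finset ℕ) (b : ℕ) (y : ℝ) : ℝ := (∑ a ∈ A, R (a + b) y) / A.card

/-- the starting theorem `TranslateAverages` -/
lemma start1 (ε : ℝ) (hε : 0 < ε) (C : ℕ) :
    ∃ K : ℕ, ∀ N : ℕ, K ≤ N → ∀ A : Finset ℕ, A ⊆ Finset.Icc 1 N →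
      (N : ℝ) / Real.log N ^ C ≤ A.card →
      ∃ E : Finset ℕ, E ⊆ Finset.Icc 1 N ∧ (E.card : ℝ) ≤ (N : ℝ) / Real.log N ^ C ∧
        ∀ b ∈ Finset.Icc 1 N, b ∉ E → ∀ y : ℝ, Real.log N ^ K ≤ y → y ≤ N → |avg A b y - 1| ≤ ε :=
  Pool.Agent.Results.MP_293bbf_nt.TranslateAverages.result ε hε C

/-- the second part of the starting theorem `TranslatesOfSets` of MP_31d0eb_nt -/
lemma start2 : ∃ c : ℝ, 0 < c ∧ ∀ ε : ℝ, 0 < ε → ε < 1 →
      ∃ κ : ℝ, 0 < κ ∧ ∃ N₀ : ℕ, ∀ N : ℕ, N₀ ≤ N → ∀ A : Finset ℕ, A ⊆ Finset.Icc 1 N →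
        (N : ℝ) ^ (1 - κ) ≤ A.card →
        ∃ E : Finset ℕ, E ⊆ Finset.Icc 1 N ∧ (E.card : ℝ) ≤ (N : ℝ) ^ (1 - κ) ∧
          ∀ b ∈ Finset.Icc 1 N, b ∉ E → ∀ H : ℝ, (N : ℝ) ^ ε ≤ H → H ≤ N →
            c ≤ avg A b H ∧ avg A b H ≤ 6 ∧
            c * A.card ≤ (Set.ncard {a : ℕ | a ∈ A ∧ c ≤ R (a + b) H} : ℝ) := by
  obtain ⟨c, hc, h⟩ := Pool.Agent.Results.MP_31d0eb_nt.TranslatesOfSets.result
  refine ⟨c, hc, fun ε hε hε1 => ?_⟩
  obtain ⟨κ, hκ, N₀, hN⟩ := (h ε hε hε1).2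
  refine ⟨κ, hκ, N₀, fun N hN0 A hA hAc => ?_⟩
  obtain ⟨E, h1, h2, h3⟩ := hN N hN0 A hA hAc
  have e1 : ∀ (x : ℕ) (y : ℝ), R x y =
      ((Nat.primeCounting ⌊(x : ℝ) + y⌋₊ : ℝ) - Nat.primeCounting x) * Real.log (x : ℝ) / y := by
    intro x y
    unfold R
    rw [div_div_eq_mul_div]
  refine ⟨E, h1, h2, fun b hb hbE H hH1 hH2 => ?_⟩
  obtain ⟨h4, h5, h6⟩ := h3 b hb hbE H hH1 hH2
  unfold avg
  simp only [e1]
  exact ⟨h4, h5, h6⟩

/-- elementary facts on the scale `X = ⌈(A + 1) v⌉` -/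
lemma scale {v : ℝ} (hv : 1 ≤ v) (A : ℕ) : v ≤ (⌈((A : ℝ) + 1) * v⌉₊ : ℝ) ∧
    (⌈((A : ℝ) + 1) * v⌉₊ : ℝ) ≤ ((A : ℝ) + 2) * v ∧ ((A : ℝ) + 1) * v ≤ (⌈((A : ℝ) + 1) * v⌉₊ : ℝ) := by
  have hA : (0 : ℝ) ≤ A := Nat.cast_nonneg A
  have h1 := Nat.le_ceil (((A : ℝ) + 1) * v)
  have h2 := Nat.ceil_lt_add_one (show 0 ≤ ((A : ℝ) + 1) * v by positivity)
  refine ⟨?_, ?_, h1⟩
  · nlinarith
  · nlinarith

lemma ev_pow {v : ℕ → ℝ} (hv1 : ∀ n, 1 ≤ v n) (hv : Tendsto v atTop atTop) (A : ℕ) {ε' ε : ℝ} (h0 : 0 ≤ ε')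
    (hε : ε' < ε) : ∀ᶠ n in atTop, (⌈((A : ℝ) + 1) * v n⌉₊ : ℝ) ^ ε' ≤ (v n) ^ ε := by
  have h1 : Tendsto (fun n => (v n) ^ (ε - ε')) atTop atTop := (tendsto_rpow_atTop (by linarith)).comp hv
  filter_upwards [h1.eventually_ge_atTop (((A : ℝ) + 2) ^ ε')] with n hn
  have hn0 : 0 < v n := lt_of_lt_of_le one_pos (hv1 n)
  calc (⌈((A : ℝ) + 1) * v n⌉₊ : ℝ) ^ ε' ≤ (((A : ℝ) + 2) * v n) ^ ε' :=
        Real.rpow_le_rpow (Nat.cast_nonneg _) (scale (hv1 n) A).2.1 h0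
    _ = ((A : ℝ) + 2) ^ ε' * (v n) ^ ε' := Real.mul_rpow (by positivity) hn0.le
    _ ≤ (v n) ^ (ε - ε') * (v n) ^ ε' := mul_le_mul_of_nonneg_right hn (Real.rpow_nonneg hn0.le _)
    _ = (v n) ^ ε := by
        rw [← Real.rpow_add hn0]
        congr 1
        ring

lemma ev_log {v : ℕ → ℝ} (hv : Tendsto v atTop atTop) (D : ℕ) : ∀ᶠ n in atTop, Real.log (v n) ^ D ≤ v n := by
  have h1 := (isLittleO_log_rpow_atTop (show (0 : ℝ) < 1 / (D + 1) by positivity)).bound (show (0 : ℝ) < 1 by norm_num)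
  filter_upwards [hv.eventually h1, hv.eventually_ge_atTop 1] with n hn hn1
  have hn0 : 0 < v n := by linarith
  rw [one_mul, Real.norm_eq_abs, Real.norm_eq_abs, abs_of_nonneg (Real.log_nonneg hn1),
    abs_of_nonneg (Real.rpow_nonneg hn0.le _)] at hn
  calc Real.log (v n) ^ D ≤ ((v n) ^ (1 / ((D : ℝ) + 1))) ^ D := pow_le_pow_left₀ (Real.log_nonneg hn1) hn D
    _ = (v n) ^ (1 / ((D : ℝ) + 1) * D) := by rw [← Real.rpow_natCast, ← Real.rpow_mul hn0.le]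
    _ ≤ (v n) ^ (1 : ℝ) := by
        apply Real.rpow_le_rpow_of_exponent_le hn1
        rw [one_div_mul_eq_div, div_le_one (by positivity)]
        linarith
    _ = v n := Real.rpow_one _

/-- log powers at the scale `X = ⌈(A + 1) v⌉` -/
lemma ev_logpow {v : ℕ → ℝ} (hv1 : ∀ n, 1 ≤ v n) (hv : Tendsto v atTop atTop) (B K : ℕ) :
    ∀ᶠ n in atTop, Real.log (⌈((B : ℝ) + 1) * v n⌉₊ : ℝ) ^ K ≤ Real.log (v n) ^ (K + 1) := by
  have hlog : Tendsto (fun n => Real.log (v n)) atTop atTop := Real.tendsto_log_atTop.comp hv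
  filter_upwards [hlog.eventually_ge_atTop ((B : ℝ) + 2), hlog.eventually_ge_atTop ((2 : ℝ) ^ K)] with n h1 h2
  have hB : (0 : ℝ) ≤ B := Nat.cast_nonneg B
  have hn0 : 0 < v n := lt_of_lt_of_le one_pos (hv1 n)
  obtain ⟨hs1, hs2, hs3⟩ := scale (hv1 n) B
  have h3 : Real.log (⌈((B : ℝ) + 1) * v n⌉₊ : ℝ) ≤ 2 * Real.log (v n) := by
    have h4 : Real.log (⌈((B : ℝ) + 1) * v n⌉₊ : ℝ) ≤ Real.log (((B : ℝ) + 2) * v n) :=
      Real.log_le_log (lt_of_lt_of_le hn0 hs1) hs2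
    rw [Real.log_mul (by positivity) hn0.ne'] at h4
    have h5 := Real.log_le_sub_one_of_pos (show (0 : ℝ) < (B : ℝ) + 2 by positivity)
    linarith
  have h6 : 0 ≤ Real.log (⌈((B : ℝ) + 1) * v n⌉₊ : ℝ) := Real.log_nonneg ((hv1 n).trans hs1)
  have h7 : 0 ≤ Real.log (v n) := by linarith
  calc Real.log (⌈((B : ℝ) + 1) * v n⌉₊ : ℝ) ^ K ≤ (2 * Real.log (v n)) ^ K := pow_le_pow_left₀ h6 h3 K
    _ = 2 ^ K * Real.log (v n) ^ K := mul_pow _ _ _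
    _ ≤ Real.log (v n) * Real.log (v n) ^ K := mul_le_mul_of_nonneg_right h2 (by positivity)
    _ = Real.log (v n) ^ (K + 1) := by ring

/-- **Theorem.** (1) Let `v ≥ 1` tend to infinity with `∑ 1 / (log v_n) ^ t < ∞` for some `t`, and let `A_n` be ANY sets of at
least `v_n / (log v_n) ^ C` integers in `[1, v_n]`. For almost all `α > 0`, for all `ε > 0` and `D` there is `K` such that for
all large `n` and ALL integers `b ≥ 1` with `|b - α v_n| ≤ (log v_n) ^ D`, the average of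
`R x y = (π(x + y) - π(x)) / (y / log x)` over the `x ∈ A_n + b` differs from `1` by at most `ε` for all real `y` with
`(log v_n) ^ K ≤ y ≤ v_n` at once.

(2) There is `c > 0` and for every `0 < ε < 1` there is `κ > 0` such that, if `v ≥ 1` has exponent of convergence at most
`τ`, `θ < 1` and `A_n` are ANY sets of at least `v_n ^ (1 - κ)` integers in `[1, v_n]`, there is a set `E` of Hausdorff
dimension at most `(1 - κ + τ) / (1 - θ)` such that for all `α > 0` outside `E`, all large `n` and ALL integers `b ≥ 1` with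
`|b - α v_n| ≤ v_n ^ θ` the average of `R x y` over `x ∈ A_n + b` is between `c` and `6`, and `R x y ≥ c` for at least
`c |A_n|` of these `x`, for all real `y` with `v_n ^ ε ≤ y ≤ v_n` at once.

(3) The condition on `v` in (1) holds for `v_n = exp ((n + 1) ^ η)`, `η > 0`, and the exponents of convergence of
`v_n = (n + 1) ^ a` and `v_n = b ^ n` are at most `1 / a` and `0`. -/
theorem result :
    (∀ (v : ℕ → ℝ) (t C : ℕ) (A : ℕ → Finset ℕ), (∀ n, 1 ≤ v n) → Tendsto v atTop atTop →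
      Summable (fun n : ℕ => 1 / Real.log (v n) ^ t) → (∀ n, ∀ a ∈ A n, 1 ≤ a ∧ (a : ℝ) ≤ v n) →
      (∀ n, v n / Real.log (v n) ^ C ≤ (A n).card) →
      ∀ᵐ α : ℝ, 0 < α → ∀ (ε : ℝ) (D : ℕ), 0 < ε → ∃ K n₀ : ℕ, ∀ n : ℕ, n₀ ≤ n → ∀ b : ℕ, 1 ≤ b →
        |(b : ℝ) - α * v n| ≤ Real.log (v n) ^ D → ∀ y : ℝ, Real.log (v n) ^ K ≤ y → y ≤ v n →
          |avg (A n) b y - 1| ≤ ε) ∧
    (∃ c : ℝ, 0 < c ∧ ∀ ε : ℝ, 0 < ε → ε < 1 → ∃ κ : ℝ, 0 < κ ∧ ∀ (v : ℕ → ℝ) (τ θ : ℝ) (A : ℕ → Finset ℕ),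
      (∀ n, 1 ≤ v n) → 0 ≤ τ → ExpLe v τ → θ < 1 → (∀ n, ∀ a ∈ A n, 1 ≤ a ∧ (a : ℝ) ≤ v n) →
      (∀ n, (v n) ^ (1 - κ) ≤ (A n).card) →
      ∃ E : Set ℝ, dimH E ≤ ENNReal.ofReal ((1 - κ + τ) / (1 - θ)) ∧ ∀ α : ℝ, 0 < α → α ∉ E →
        ∃ n₀ : ℕ, ∀ n : ℕ, n₀ ≤ n → ∀ b : ℕ, 1 ≤ b → |(b : ℝ) - α * v n| ≤ (v n) ^ θ →
          ∀ H : ℝ, (v n) ^ ε ≤ H → H ≤ v n → c ≤ avg (A n) b H ∧ avg (A n) b H ≤ 6 ∧
            c * (A n).card ≤ (Set.ncard {a : ℕ | a ∈ A n ∧ c ≤ R (a + b) H} : ℝ)) ∧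
    (∀ η : ℝ, 0 < η → ∃ t : ℕ, Summable (fun n : ℕ => 1 / Real.log (Real.exp (((n : ℝ) + 1) ^ η)) ^ t)) ∧
    (∀ a : ℝ, 0 < a → ExpLe (fun n : ℕ => ((n : ℝ) + 1) ^ a) (1 / a)) ∧
    (∀ b : ℝ, 1 < b → ExpLe (fun n : ℕ => b ^ n) 0) := by
  classical
  obtain ⟨c, hc, hst⟩ := start2
  refine ⟨fun v t C A hv1 hv hsum hA hAc => ?_, ⟨c, hc, fun ε hε hε1 => ?_⟩, fun η hη => ?_,
    fun κ hκ => Pool.Agent.Y854.GM.expLe_pow κ hκ, fun b hb => Pool.Agent.Y854.GM.expLe_geom b hb⟩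
  · -- part (1)
    have key : ∀ B j D : ℕ, ∀ᵐ α : ℝ, 0 < α → α ≤ B → ∃ K n₀ : ℕ, ∀ n : ℕ, n₀ ≤ n → ∀ b : ℕ, 1 ≤ b →
        |(b : ℝ) - α * v n| ≤ Real.log (v n) ^ D → ∀ H : ℝ, Real.log (v n) ^ K ≤ H → H ≤ v n →
          |avg (A n) b H - 1| ≤ 1 / ((j : ℝ) + 1) := by
      intro B j D
      obtain ⟨N₀, hN₀⟩ := start1 (1 / ((j : ℝ) + 1)) (by positivity) (C + t + D + 1)
      have hB0 : (0 : ℝ) ≤ B := Nat.cast_nonneg B
      have hlog : Tendsto (fun n => Real.log (v n)) atTop atTop := Real.tendsto_log_atTop.comp hv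
      have hev : ∀ᶠ n in atTop, (N₀ : ℝ) ≤ v n ∧ (B : ℝ) + 2 ≤ Real.log (v n) ∧
          Real.log (⌈((B : ℝ) + 1) * v n⌉₊ : ℝ) ^ N₀ ≤ Real.log (v n) ^ (N₀ + 1) ∧
          Real.log (v n) ^ D ≤ v n := by
        filter_upwards [hv.eventually_ge_atTop (N₀ : ℝ), hlog.eventually_ge_atTop ((B : ℝ) + 2),
          ev_logpow hv1 hv B N₀, ev_log hv D] with n h1 h2 h3 h4
        exact ⟨h1, h2, h3, h4⟩
      obtain ⟨n₁, hn₁⟩ := hev.exists_forall_of_atTop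
      have hex : ∀ n : ℕ, ∃ E : Finset ℕ, n₁ ≤ n →
          ((E.card : ℝ) ≤ (⌈((B : ℝ) + 1) * v n⌉₊ : ℝ) / Real.log (⌈((B : ℝ) + 1) * v n⌉₊ : ℝ) ^ (C + t + D + 1) ∧
          ∀ b ∈ Finset.Icc 1 ⌈((B : ℝ) + 1) * v n⌉₊, b ∉ E → ∀ H : ℝ,
            Real.log (⌈((B : ℝ) + 1) * v n⌉₊ : ℝ) ^ N₀ ≤ H → H ≤ (⌈((B : ℝ) + 1) * v n⌉₊ : ℝ) →
            |avg (A n) b H - 1| ≤ 1 / ((j : ℝ) + 1)) := by
        intro n
        by_cases hn : n₁ ≤ n
        swap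
        · exact ⟨∅, fun h => absurd h hn⟩
        obtain ⟨h1, h2, h3, h4⟩ := hn₁ n hn
        obtain ⟨hs1, hs2, hs3⟩ := scale (hv1 n) B
        have hl1 : 1 ≤ Real.log (v n) := by linarith
        have hl2 : Real.log (v n) ≤ Real.log (⌈((B : ℝ) + 1) * v n⌉₊ : ℝ) :=
          Real.log_le_log (lt_of_lt_of_le one_pos (hv1 n)) hs1
        have hX : N₀ ≤ ⌈((B : ℝ) + 1) * v n⌉₊ := by exact_mod_cast h1.trans hs1
        have hsub : A n ⊆ Finset.Icc 1 ⌈((B : ℝ) + 1) * v n⌉₊ := by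
          intro a ha
          rw [Finset.mem_Icc]
          refine ⟨(hA n a ha).1, ?_⟩
          exact_mod_cast (hA n a ha).2.trans hs1
        have hcard : (⌈((B : ℝ) + 1) * v n⌉₊ : ℝ) / Real.log (⌈((B : ℝ) + 1) * v n⌉₊ : ℝ) ^ (C + t + D + 1) ≤
            ((A n).card : ℝ) := by
          refine le_trans ?_ (hAc n)
          rw [div_le_div_iff₀ (pow_pos (by linarith) _) (pow_pos (by linarith) _)]
          calc (⌈((B : ℝ) + 1) * v n⌉₊ : ℝ) * Real.log (v n) ^ C ≤ (((B : ℝ) + 2) * v n) * Real.log (v n) ^ C :=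
                mul_le_mul_of_nonneg_right hs2 (by positivity)
            _ ≤ (Real.log (v n) * v n) * Real.log (v n) ^ C := by
                apply mul_le_mul_of_nonneg_right _ (by positivity)
                exact mul_le_mul_of_nonneg_right h2 (by linarith [hv1 n])
            _ = v n * Real.log (v n) ^ (C + 1) := by ring
            _ ≤ v n * Real.log (v n) ^ (C + t + D + 1) := by
                apply mul_le_mul_of_nonneg_left _ (by linarith [hv1 n])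
                exact pow_le_pow_right₀ hl1 (by omega)
            _ ≤ v n * Real.log (⌈((B : ℝ) + 1) * v n⌉₊ : ℝ) ^ (C + t + D + 1) := by
                apply mul_le_mul_of_nonneg_left _ (by linarith [hv1 n])
                exact pow_le_pow_left₀ (by linarith) hl2 _
        obtain ⟨E, -, hE2, hE3⟩ := hN₀ _ hX (A n) hsub hcard
        exact ⟨E, fun _ => ⟨hE2, hE3⟩⟩
      choose E hE using hex
      have hae := Pool.Agent.V11326.WA.ae_fin (fun n => if n₁ ≤ n then (E n : Set ℕ) else ∅) (fun n => by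
        split_ifs
        · exact Finset.finite_toSet _
        · exact Set.finite_empty) (v := v) (L := fun n => if n₁ ≤ n then Real.log (v n) ^ D else 0) hv1 (fun n => by
        split_ifs
        · exact pow_nonneg (Real.log_nonneg (hv1 n)) D
        · exact le_rfl) (c := fun n => ((B : ℝ) + 2) * (1 / Real.log (v n) ^ t)) (by
        filter_upwards [eventually_ge_atTop n₁] with n hn
        obtain ⟨h1, h2, h3, h4⟩ := hn₁ n hn
        obtain ⟨hs1, hs2, hs3⟩ := scale (hv1 n) B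
        obtain ⟨hE1, -⟩ := hE n hn
        have hl1 : 1 ≤ Real.log (v n) := by linarith
        have hl2 : Real.log (v n) ≤ Real.log (⌈((B : ℝ) + 1) * v n⌉₊ : ℝ) :=
          Real.log_le_log (lt_of_lt_of_le one_pos (hv1 n)) hs1
        have hvn : 0 < v n := lt_of_lt_of_le one_pos (hv1 n)
        simp only [if_pos hn]
        rw [Set.ncard_coe_finset, div_le_iff₀ hvn]
        calc ((E n).card : ℝ) * Real.log (v n) ^ D
            ≤ ((⌈((B : ℝ) + 1) * v n⌉₊ : ℝ) / Real.log (⌈((B : ℝ) + 1) * v n⌉₊ : ℝ) ^ (C + t + D + 1)) *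
                Real.log (v n) ^ D := mul_le_mul_of_nonneg_right hE1 (by positivity)
          _ ≤ ((((B : ℝ) + 2) * v n) / Real.log (v n) ^ (t + D)) * Real.log (v n) ^ D := by
              apply mul_le_mul_of_nonneg_right _ (by positivity)
              apply div_le_div₀ (by positivity) hs2 (by positivity)
              calc Real.log (v n) ^ (t + D) ≤ Real.log (v n) ^ (C + t + D + 1) := pow_le_pow_right₀ hl1 (by omega)
                _ ≤ _ := pow_le_pow_left₀ (by linarith) hl2 _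
          _ = ((B : ℝ) + 2) * (1 / Real.log (v n) ^ t) * v n := by
              rw [pow_add]
              field_simp) (hsum.mul_left _)
      filter_upwards [hae] with α hα hα0 hαB
      obtain ⟨n₂, hn₂⟩ := hα
      refine ⟨N₀ + 1, max n₁ n₂, fun n hn b hb1 hbw H hH1 hH2 => ?_⟩
      have hn1 : n₁ ≤ n := (le_max_left _ _).trans hn
      obtain ⟨h1, h2, h3, h4⟩ := hn₁ n hn1
      obtain ⟨hs1, hs2, hs3⟩ := scale (hv1 n) B
      have hnot : b ∉ E n := by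
        intro hbE
        have := hn₂ n ((le_max_right _ _).trans hn) b (by
          rw [if_pos hn1]
          exact hbE)
        simp only [if_pos hn1] at this
        exact absurd hbw (not_le.2 this)
      have hbX : b ≤ ⌈((B : ℝ) + 1) * v n⌉₊ := by
        have h5 := (abs_le.1 hbw).2
        have h6 : α * v n ≤ B * v n := mul_le_mul_of_nonneg_right hαB (by linarith [hv1 n])
        have h7 : (b : ℝ) ≤ (⌈((B : ℝ) + 1) * v n⌉₊ : ℝ) := by
          refine le_trans ?_ hs3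
          linarith
        exact_mod_cast h7
      exact (hE n hn1).2 b (Finset.mem_Icc.2 ⟨hb1, hbX⟩) hnot H (h3.trans hH1) (hH2.trans hs1)
    have hall : ∀ᵐ α : ℝ, ∀ B j D : ℕ, 0 < α → α ≤ B → ∃ K n₀ : ℕ, ∀ n : ℕ, n₀ ≤ n → ∀ b : ℕ, 1 ≤ b →
        |(b : ℝ) - α * v n| ≤ Real.log (v n) ^ D → ∀ H : ℝ, Real.log (v n) ^ K ≤ H → H ≤ v n →
          |avg (A n) b H - 1| ≤ 1 / ((j : ℝ) + 1) :=
      ae_all_iff.2 fun B => ae_all_iff.2 fun j => ae_all_iff.2 fun D => key B j D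
    filter_upwards [hall] with α hα hα0 δ D hδ
    obtain ⟨B, hB⟩ := exists_nat_ge α
    obtain ⟨j, hj⟩ := exists_nat_ge (1 / δ)
    have hj2 : 1 / ((j : ℝ) + 1) ≤ δ := by
      rw [div_le_iff₀ hδ] at hj
      rw [div_le_iff₀ (by positivity)]
      nlinarith
    obtain ⟨K, n₀, hn₀⟩ := hα B j D hα0 hB
    exact ⟨K, n₀, fun n hn b hb1 hbw H hH1 hH2 => (hn₀ n hn b hb1 hbw H hH1 hH2).trans hj2⟩
  · -- part (2)
    obtain ⟨κ₀, hκ₀, N₀, hN₀⟩ := hst (ε / 2) (by linarith) (by linarith)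
    have hk1 : 0 < min κ₀ 1 := lt_min hκ₀ one_pos
    refine ⟨min κ₀ 1 / 2, by linarith, fun v τ θ A hv1 hτ hE hθ1 hA hAc => ?_⟩
    have hv : Tendsto v atTop atTop :=
      Pool.Agent.Y854.GM.tendsto_of_expLe (fun k => lt_of_lt_of_le one_pos (hv1 k)) hτ hE
    have hex0 : ∀ B : ℕ, ∃ n₁ : ℕ, ∀ n : ℕ, n₁ ≤ n → (N₀ : ℝ) ≤ v n ∧
        (⌈((B : ℝ) + 1) * v n⌉₊ : ℝ) ^ (1 - min κ₀ 1) ≤ (v n) ^ (1 - min κ₀ 1 / 2) ∧
        (⌈((B : ℝ) + 1) * v n⌉₊ : ℝ) ^ (ε / 2) ≤ (v n) ^ ε := by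
      intro B
      have hev : ∀ᶠ n in atTop, (N₀ : ℝ) ≤ v n ∧
          (⌈((B : ℝ) + 1) * v n⌉₊ : ℝ) ^ (1 - min κ₀ 1) ≤ (v n) ^ (1 - min κ₀ 1 / 2) ∧
          (⌈((B : ℝ) + 1) * v n⌉₊ : ℝ) ^ (ε / 2) ≤ (v n) ^ ε := by
        filter_upwards [hv.eventually_ge_atTop (N₀ : ℝ),
          ev_pow hv1 hv B (show 0 ≤ 1 - min κ₀ 1 by linarith [min_le_right κ₀ 1])
            (show 1 - min κ₀ 1 < 1 - min κ₀ 1 / 2 by linarith),
          ev_pow hv1 hv B (show 0 ≤ ε / 2 by linarith) (show ε / 2 < ε by linarith)] with n h1 h2 h3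
        exact ⟨h1, h2, h3⟩
      exact hev.exists_forall_of_atTop
    choose n₁ hn₁ using hex0
    have hex : ∀ B n : ℕ, ∃ F : Finset ℕ, n₁ B ≤ n →
        ((F.card : ℝ) ≤ (v n) ^ (1 - min κ₀ 1 / 2) ∧
        ∀ b ∈ Finset.Icc 1 ⌈((B : ℝ) + 1) * v n⌉₊, b ∉ F → ∀ H : ℝ,
          (⌈((B : ℝ) + 1) * v n⌉₊ : ℝ) ^ (ε / 2) ≤ H → H ≤ (⌈((B : ℝ) + 1) * v n⌉₊ : ℝ) →
          c ≤ avg (A n) b H ∧ avg (A n) b H ≤ 6 ∧
            c * (A n).card ≤ (Set.ncard {a : ℕ | a ∈ A n ∧ c ≤ R (a + b) H} : ℝ)) := by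
      intro B n
      by_cases hn : n₁ B ≤ n
      swap
      · exact ⟨∅, fun h => absurd h hn⟩
      obtain ⟨h1, h2, h3⟩ := hn₁ B n hn
      obtain ⟨hs1, hs2, hs3⟩ := scale (hv1 n) B
      have hX : N₀ ≤ ⌈((B : ℝ) + 1) * v n⌉₊ := by exact_mod_cast h1.trans hs1
      have hX1 : (1 : ℝ) ≤ (⌈((B : ℝ) + 1) * v n⌉₊ : ℝ) := (hv1 n).trans hs1
      have hsub : A n ⊆ Finset.Icc 1 ⌈((B : ℝ) + 1) * v n⌉₊ := by
        intro a ha
        rw [Finset.mem_Icc]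
        refine ⟨(hA n a ha).1, ?_⟩
        exact_mod_cast (hA n a ha).2.trans hs1
      have hle : (⌈((B : ℝ) + 1) * v n⌉₊ : ℝ) ^ (1 - κ₀) ≤ (⌈((B : ℝ) + 1) * v n⌉₊ : ℝ) ^ (1 - min κ₀ 1) :=
        Real.rpow_le_rpow_of_exponent_le hX1 (by linarith [min_le_left κ₀ 1])
      obtain ⟨F, -, hF2, hF3⟩ := hN₀ _ hX (A n) hsub ((hle.trans h2).trans (hAc n))
      exact ⟨F, fun _ => ⟨hF2.trans (hle.trans h2), hF3⟩⟩
    choose F hF using hex
    obtain ⟨E, hE1, hE2⟩ := Pool.Agent.V11326.WA.dim_sets (fun B n => (F B n : Set ℕ))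
      (fun B n => Finset.finite_toSet _) (s := 1 - min κ₀ 1 / 2) (τ := τ) (θ := θ) hv1 hτ hE
      (by linarith [min_le_right κ₀ 1]) hθ1 (fun B => ⟨1, n₁ B, fun n hn => by
        rw [Set.ncard_coe_finset, one_mul]
        exact (hF B n hn).1⟩)
    refine ⟨E, hE1, fun α hα hαE => ?_⟩
    obtain ⟨B, hB, n₂, hn₂⟩ := hE2 α hα hαE
    refine ⟨max (n₁ B) n₂, fun n hn b hb1 hbw H hH1 hH2 => ?_⟩
    have hn1 : n₁ B ≤ n := (le_max_left _ _).trans hn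
    obtain ⟨h1, h2, h3⟩ := hn₁ B n hn1
    obtain ⟨hs1, hs2, hs3⟩ := scale (hv1 n) B
    have hnot : b ∉ F B n := fun hbF =>
      absurd hbw (not_le.2 (hn₂ n ((le_max_right _ _).trans hn) b hbF))
    have hbX : b ≤ ⌈((B : ℝ) + 1) * v n⌉₊ := by
      have h5 := (abs_le.1 hbw).2
      have h6 : α * v n ≤ B * v n := mul_le_mul_of_nonneg_right hB (by linarith [hv1 n])
      have h8 : (v n) ^ θ ≤ v n := by
        calc (v n) ^ θ ≤ (v n) ^ (1 : ℝ) := Real.rpow_le_rpow_of_exponent_le (hv1 n) hθ1.le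
          _ = v n := Real.rpow_one _
      have h7 : (b : ℝ) ≤ (⌈((B : ℝ) + 1) * v n⌉₊ : ℝ) := by
        refine le_trans ?_ hs3
        linarith
      exact_mod_cast h7
    exact (hF B n hn1).2 b (Finset.mem_Icc.2 ⟨hb1, hbX⟩) hnot H (h3.trans hH1) (hH2.trans hs1)
  · -- part (3)
    obtain ⟨t, ht⟩ := exists_nat_gt (1 / η)
    refine ⟨t, ?_⟩
    rw [div_lt_iff₀ hη] at ht
    have h1 : Summable (fun n : ℕ => ((n + 1 : ℕ) : ℝ) ^ (-(t * η))) :=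
      (summable_nat_add_iff 1).2 (Real.summable_nat_rpow.2 (by linarith))
    refine h1.congr fun n => ?_
    rw [Real.log_exp, ← Real.rpow_natCast, ← Real.rpow_mul (by positivity), Real.rpow_neg (by positivity), one_div]
    push_cast
    rw [mul_comm η]

end Pool.Agent.Results.MP_293bbf_nt.TranslatesInWindows
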